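import Pool.Agent.H65.CRZ.TL
import Pool.Agent.H18.PZ.Fac

/-!
MP_347b49_nt, board crz_modules, row LV: Levinson's inequality.
-/

set_option autoImplicit false

open Complex Filter Topology MeasureTheory Set

namespace Pool.Agent.H90.CRZ

open Pool.Agent.H65.CRZ

/-- the logarithmic derivative depends on the germ only -/
lemma ld_congr {f g : ℂ → ℂ} {s : ℂ} (h : f =ᶠ[𝓝 s] g) : ld f s = ld g s := by
  unfold ld
  rw [h.deriv_eq, h.eq_of_nhds]

lemma order_congr {f g : ℂ → ℂ} {s : ℂ} (h : f =ᶠ[𝓝 s] g) :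
    analyticOrderNatAt f s = analyticOrderNatAt g s := by
  unfold analyticOrderNatAt
  rw [analyticOrderAt_congr h]

lemma isOpen_re {a : ℝ} : IsOpen {s : ℂ | a < s.re} := isOpen_lt continuous_const continuous_re

lemma eventually_of_re {f g : ℂ → ℂ} {a : ℝ} (h : ∀ s : ℂ, a < s.re → f s = g s) {s : ℂ}
    (hs : a < s.re) : f =ᶠ[𝓝 s] g := by
  filter_upwards [(isOpen_re (a := a)).mem_nhds hs] with w hw
  exact h w hw

lemma eventually_of_open {f g : ℂ → ℂ} {U : Set ℂ} (hU : IsOpen U) (h : ∀ s ∈ U, f s = g s)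
    {s : ℂ} (hs : s ∈ U) : f =ᶠ[𝓝 s] g := by
  filter_upwards [hU.mem_nhds hs] with w hw
  exact h w hw

lemma rp_congr {f g : ℂ → ℂ} {U : Set ℂ} (hU : IsOpen U) (h : ∀ s ∈ U, f s = g s)
    {a b t₁ t₂ : ℝ} (hab : a ≤ b) (ht : t₁ ≤ t₂)
    (hm : ∀ x t : ℝ, x ∈ Icc a b → t ∈ Icc t₁ t₂ → ((x : ℂ) + t * I) ∈ U) :
    rp f a b t₁ t₂ = rp g a b t₁ t₂ := by
  have e : ∀ s ∈ U, ld f s = ld g s := fun s hs => ld_congr (eventually_of_open hU h hs)
  have h1 : ∀ t : ℝ, t ∈ Icc t₁ t₂ →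
      ∫ x in a..b, (ld f (x + t * I)).im = ∫ x in a..b, (ld g (x + t * I)).im := by
    intro t ht
    refine intervalIntegral.integral_congr fun x hx => ?_
    rw [uIcc_of_le hab] at hx
    have h2 := e (x + t * I) (hm x t hx ht)
    show (ld f (x + t * I)).im = (ld g (x + t * I)).im
    rw [h2]
  have h2 : ∫ t in t₁..t₂, (ld f (b + t * I)).re = ∫ t in t₁..t₂, (ld g (b + t * I)).re := by
    refine intervalIntegral.integral_congr fun t htt => ?_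
    rw [uIcc_of_le ht] at htt
    have h3 := e (b + t * I) (hm b t ⟨hab, le_rfl⟩ htt)
    show (ld f (b + t * I)).re = (ld g (b + t * I)).re
    rw [h3]
  unfold rp
  rw [h1 t₁ ⟨le_rfl, ht⟩, h1 t₂ ⟨ht, le_rfl⟩, h2]

lemma zc_congr {f g : ℂ → ℂ} {U : Set ℂ} (hU : IsOpen U) (h : ∀ s ∈ U, f s = g s) {S : Set ℂ}
    (hS : S ⊆ U) : zc f S = zc g S := by
  unfold zc
  have hset : {ρ : ℂ | ρ ∈ S ∧ f ρ = 0} = {ρ : ℂ | ρ ∈ S ∧ g ρ = 0} := by
    ext ρ
    constructor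
    · rintro ⟨h1, h2⟩
      exact ⟨h1, by rw [← h ρ (hS h1), h2]⟩
    · rintro ⟨h1, h2⟩
      exact ⟨h1, by rw [h ρ (hS h1), h2]⟩
  rw [hset]
  refine finsum_mem_congr rfl fun ρ hρ => ?_
  rw [order_congr (eventually_of_open hU h (hS hρ.1))]

/-- the function on the critical line is real -/
lemma real_line {Λ : ℂ → ℂ} {e ε : ℂ} (he : e ^ 2 = ε) (hε : ‖ε‖ = 1)
    (hfe : ∀ s : ℂ, Λ s = ε * (starRingEnd ℂ) (Λ (1 - (starRingEnd ℂ) s))) (t : ℝ) :
    ((starRingEnd ℂ) e * Λ (1 / 2 + t * I)).im = 0 := by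
  have h1 : (1 : ℂ) - (starRingEnd ℂ) (1 / 2 + t * I) = 1 / 2 + t * I := by
    rw [map_add, map_mul, conj_ofReal, conj_I, map_div₀, map_one, map_ofNat]
    ring
  have h2 := hfe (1 / 2 + t * I)
  rw [h1] at h2
  have hee : e * (starRingEnd ℂ) e = 1 := by
    rw [mul_conj, normSq_eq_norm_sq]
    have h3 : ‖e‖ ^ 2 = 1 := by rw [← norm_pow, he, hε]
    rw [h3]
    simp
  rw [← conj_eq_iff_im]
  rw [map_mul, conj_conj]
  set w := Λ (1 / 2 + t * I) with hw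
  calc e * (starRingEnd ℂ) w = (e * (starRingEnd ℂ) e) * (e * (starRingEnd ℂ) w) := by
        rw [hee, one_mul]
    _ = (starRingEnd ℂ) e * (e ^ 2 * (starRingEnd ℂ) w) := by ring
    _ = (starRingEnd ℂ) e * w := by rw [he, ← h2]

/-- the factorisation -/
lemma factor {A μ lam : ℝ} (hA : 0 < A) (hμ : μ ≠ 0)
    (hμ' : 1 / μ + Real.log A = 2 * Real.log A / lam) {Λ Z : ℂ → ℂ} (e : ℂ)
    (hZ : Differentiable ℂ Z)
    (hg : ∀ s : ℂ, (∀ n : ℕ, s ≠ -(n : ℂ)) → Λ s = (A : ℂ) ^ s * Gamma s * Z s)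
    {s : ℂ} (hs : 0 < s.re) (hW : ((2 * Real.log A / lam : ℝ) : ℂ) + ld Gamma s ≠ 0) :
    e * Λ s + μ * deriv (fun s => e * Λ s) s =
      (e * μ) * ((A : ℂ) ^ s * (Gamma s * ((((2 * Real.log A / lam : ℝ) : ℂ) + ld Gamma s) *
        VZ lam A Z s))) := by
  have hnp : ∀ w : ℂ, 0 < w.re → ∀ n : ℕ, w ≠ -(n : ℂ) := by
    intro w hw n hn
    rw [hn] at hw
    simp only [neg_re, natCast_re] at hw
    have : (0 : ℝ) ≤ n := Nat.cast_nonneg n
    linarith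
  have hev : Λ =ᶠ[𝓝 s] fun s => (A : ℂ) ^ s * Gamma s * Z s :=
    eventually_of_re (a := 0) (fun w hw => hg w (hnp w hw)) hs
  have hA0 : (A : ℂ) ≠ 0 := by exact_mod_cast hA.ne'
  have hGd : DifferentiableAt ℂ Gamma s := differentiableAt_Gamma s (hnp s hs)
  have hG0 : Gamma s ≠ 0 := Gamma_ne_zero (hnp s hs)
  have d1 : HasDerivAt (fun s : ℂ => (A : ℂ) ^ s) ((A : ℂ) ^ s * Complex.log A * 1) s :=
    (hasDerivAt_id s).const_cpow (Or.inl hA0)
  have d2 := (d1.mul hGd.hasDerivAt).mul (hZ s).hasDerivAt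
  have d3 : deriv Λ s = ((A : ℂ) ^ s * Complex.log A * 1 * Gamma s + (A : ℂ) ^ s * deriv Gamma s) *
      Z s + (A : ℂ) ^ s * Gamma s * deriv Z s := by
    rw [hev.deriv_eq]
    exact d2.deriv
  have hlog : Complex.log A = ((Real.log A : ℝ) : ℂ) := (ofReal_log hA.le).symm
  have hμC : (μ : ℂ) ≠ 0 := by exact_mod_cast hμ
  have hμ2 : ((2 * Real.log A / lam : ℝ) : ℂ) = 1 / (μ : ℂ) + ((Real.log A : ℝ) : ℂ) := by
    rw [← hμ']
    push_cast
    ring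
  rw [deriv_const_mul_field, d3, hg s (hnp s hs), hlog]
  unfold VZ cof
  have hld : ld Gamma s = deriv Gamma s / Gamma s := rfl
  set W := ((2 * Real.log A / lam : ℝ) : ℂ) + ld Gamma s with hWdef
  have hWV : W * (Z s + 1 / W * deriv Z s) = W * Z s + deriv Z s := by
    field_simp
  rw [hWV]
  have hW2 : W = 1 / (μ : ℂ) + ((Real.log A : ℝ) : ℂ) + deriv Gamma s / Gamma s := by
    rw [hWdef, hμ2, hld]
  rw [hW2]
  field_simp
  ring


/-- the open rectangle -/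
def UU (b T : ℝ) : Set ℂ := {s : ℂ | 1 / 8 < s.re ∧ s.re < 2 * b ∧ |s.im| < T + 2 * b + 1}

lemma isOpen_UU (b T : ℝ) : IsOpen (UU b T) := by
  refine (isOpen_lt continuous_const continuous_re).inter
    ((isOpen_lt continuous_re continuous_const).inter
      (isOpen_lt (continuous_abs.comp continuous_im) continuous_const))

lemma convex_UU (b T : ℝ) : Convex ℝ (UU b T) := by
  intro x hx y hy α β hα hβ hαβ
  obtain ⟨x1, x2, x3⟩ := hx
  obtain ⟨y1, y2, y3⟩ := hy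
  rw [abs_lt] at x3 y3
  have hβ' : β = 1 - α := by linarith
  subst hβ'
  refine ⟨?_, ?_, ?_⟩
  · simp only [add_re, real_smul, mul_re, ofReal_re, ofReal_im, zero_mul, sub_zero]
    rcases eq_or_lt_of_le hα with h | h
    · rw [← h]
      linarith
    · nlinarith
  · simp only [add_re, real_smul, mul_re, ofReal_re, ofReal_im, zero_mul, sub_zero]
    rcases eq_or_lt_of_le hα with h | h
    · rw [← h]
      linarith
    · nlinarith
  · rw [abs_lt]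
    simp only [add_im, real_smul, mul_im, ofReal_re, ofReal_im, zero_mul, add_zero]
    constructor
    · rcases eq_or_lt_of_le hα with h | h
      · rw [← h]
        linarith
      · nlinarith
    · rcases eq_or_lt_of_le hα with h | h
      · rw [← h]
        linarith
      · nlinarith

/-- the horizontal side -/
lemma side {f : ℂ → ℂ} (h4 : T_BK) {b T h M C : ℝ} (hb : 2 ≤ b) (h0 : 0 < h)
    (h1 : h < T) (hd : ∀ s ∈ UU b T, DifferentiableAt ℂ f s) (hM : ∀ s ∈ UU b T, ‖f s‖ ≤ M)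
    (hre : 1 / 2 ≤ (f (b + h * I)).re) (hne : ∀ x ∈ Icc (1 / 2) b, f (x + h * I) ≠ 0)
    (hC : Real.pi * (Real.log (2 * M) / Real.log ((b - 1 / 4) / (b - 1 / 2)) + 1) ≤ C) :
    |∫ x in (1 / 2 : ℝ)..b, (ld f (x + h * I)).im| ≤ C := by
  have hsub : Metric.closedBall (b + h * I : ℂ) (b - 1 / 4) ⊆ UU b T := by
    intro s hs
    rw [Metric.mem_closedBall, dist_eq_norm] at hs
    have hr := (abs_re_le_norm (s - (b + h * I))).trans hs
    have hi := (abs_im_le_norm (s - (b + h * I))).trans hs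
    simp only [sub_re, add_re, ofReal_re, mul_re, I_re, mul_zero, ofReal_im, I_im, mul_one,
      sub_self, add_zero, sub_im, add_im, mul_im, zero_add] at hr hi
    rw [abs_le] at hr hi
    refine ⟨by linarith [hr.1], by linarith [hr.2], ?_⟩
    rw [abs_lt]
    constructor
    · linarith [hi.1]
    · linarith [hi.2]
  have h2 := h4 f b h (b - 1 / 2) (b - 1 / 4) M (UU b T) (by linarith) (by linarith)
    (isOpen_UU b T) hsub hd (fun s hs => hM s (hsub hs)) hre (by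
      have e : b - (b - 1 / 2) = 1 / 2 := by ring
      rw [e]
      exact hne)
  have e : b - (b - 1 / 2) = 1 / 2 := by ring
  rw [e] at h2
  exact h2.trans hC

lemma num_one {l lam : ℝ} (hl : 0 ≤ l) (h0 : 0 < lam) (h : lam < 2) : l ≤ 2 * l / lam := by
  rw [le_div_iff₀ h0]
  nlinarith

lemma num_two {l C0 : ℝ} (hl : 1 ≤ l) : Real.log 2 + C0 * l ≤ (1 + C0) * l := by
  have := Real.log_two_lt_d9
  nlinarith

lemma num_side {l C0 κ A : ℝ} (hA : 0 < A) (hl : 1 ≤ l) (hlA : l = Real.log A) (hκ : 0 < κ) :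
    Real.pi * (Real.log (2 * A ^ C0) / κ + 1) ≤ Real.pi * (((1 + C0) / κ + 1) * l) := by
  refine mul_le_mul_of_nonneg_left ?_ Real.pi_pos.le
  have q1 : Real.log (2 * A ^ C0) = Real.log 2 + C0 * l := by
    rw [Real.log_mul (by norm_num) (Real.rpow_pos_of_pos hA _).ne', Real.log_rpow hA, hlA]
  have q2 : Real.log (2 * A ^ C0) ≤ (1 + C0) * l := by
    rw [q1]
    exact num_two hl
  have q3 : Real.log (2 * A ^ C0) / κ ≤ (1 + C0) * l / κ := div_le_div_of_nonneg_right q2 hκ.le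
  have q4 : ((1 + C0) / κ + 1) * l = (1 + C0) * l / κ + l := by ring
  rw [q4]
  linarith

lemma num_fin {T l D t₁ t₂ a b c : ℝ} (hl : 0 ≤ l) (h1 : t₁ ≤ 1 / 2) (h2 : T - 1 / 2 ≤ t₂)
    (ha : |a| ≤ l) (hb : |b| ≤ l) (hc : |c| ≤ l + 2 * (Real.pi * (D * l))) (hl1 : 1 ≤ l) :
    T / Real.pi * l - (2 * D + 5) * l ≤
      1 / Real.pi * ((t₂ - t₁) * l + (a + (b + c))) - 1 := by
  rw [abs_le] at ha hb hc
  have hpi := Real.pi_pos
  have hpi3 := Real.pi_gt_three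
  have q1 : (T - 1) * l ≤ (t₂ - t₁) * l := by
    refine mul_le_mul_of_nonneg_right ?_ hl
    linarith
  have q2 : (T - 1) * l - l - l - (l + 2 * (Real.pi * (D * l))) ≤
      (t₂ - t₁) * l + (a + (b + c)) := by linarith
  have q3 := mul_le_mul_of_nonneg_left q2 (by positivity : 0 ≤ 1 / Real.pi)
  have q4 : 1 / Real.pi * ((T - 1) * l - l - l - (l + 2 * (Real.pi * (D * l)))) =
      T / Real.pi * l - 4 * (l / Real.pi) - 2 * (D * l) := by
    field_simp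
    ring
  have q6 : 4 * (l / Real.pi) ≤ 4 * l :=
    mul_le_mul_of_nonneg_left (div_le_self (by linarith) (by linarith)) (by norm_num)
  linarith

/-- the right side -/
lemma right_side {V : ℂ → ℂ} {b T t₁ t₂ : ℝ} (h0 : 0 ≤ t₁) (h12 : t₁ < t₂) (h2 : t₂ ≤ T)
    (hclose : ∀ t : ℝ, t ∈ Icc 0 T → ‖V (b + t * I) - 1‖ ≤ 1 / 4 ∧ ‖deriv V (b + t * I)‖ ≤ 1) :
    |∫ t in t₁..t₂, (ld V (b + t * I)).re| ≤ 2 * T := by
  have q0 : ∀ t ∈ Set.uIoc t₁ t₂, ‖(ld V (b + t * I)).re‖ ≤ 4 / 3 := by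
    intro t ht
    rw [uIoc_of_le h12.le] at ht
    have htI : t ∈ Icc 0 T := ⟨h0.trans ht.1.le, ht.2.trans h2⟩
    obtain ⟨q1, q2⟩ := hclose t htI
    have q3 : 3 / 4 ≤ ‖V (b + t * I)‖ := by
      have q4 := norm_sub_norm_le (1 : ℂ) (1 - V (b + t * I))
      rw [sub_sub_cancel, norm_one, norm_sub_rev] at q4
      linarith
    rw [Real.norm_eq_abs]
    refine (abs_re_le_norm _).trans ?_
    rw [ld, norm_div, div_le_iff₀ (by linarith)]
    linarith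
  have q5 := intervalIntegral.norm_integral_le_of_norm_le_const q0
  rw [Real.norm_eq_abs, abs_of_nonneg (by linarith : 0 ≤ t₂ - t₁)] at q5
  refine q5.trans ?_
  linarith

/-- the three sides together -/
lemma three_sides {V : ℂ → ℂ} {b T t₁ t₂ l s : ℝ} (hT : 2 * T ≤ l)
    (h1 : |∫ x in (1 / 2 : ℝ)..b, (ld V (x + t₁ * I)).im| ≤ s)
    (h2 : |∫ x in (1 / 2 : ℝ)..b, (ld V (x + t₂ * I)).im| ≤ s)
    (h3 : |∫ t in t₁..t₂, (ld V (b + t * I)).re| ≤ 2 * T) :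
    |rp V (1 / 2) b t₁ t₂| ≤ l + 2 * s := by
  unfold rp
  refine (abs_sub _ _).trans ?_
  have q2 := abs_add_le (∫ x in (1 / 2 : ℝ)..b, (ld V (x + t₁ * I)).im)
    (∫ t in t₁..t₂, (ld V (b + t * I)).re)
  linarith

theorem pf_LV (h1 : T_RP) (h2 : T_ZM) (h3 : T_N1) (h4 : T_BK) (h5 : T_G2) (h6 : T_V0) : T_LV := by
  intro C lam b hC hlam1 hlam2 hb hCb
  obtain ⟨C0, hC0, hV0⟩ := h6 C lam b hC hlam1 hlam2 hb hCb
  set κ : ℝ := Real.log ((b - 1 / 4) / (b - 1 / 2)) with hκ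
  have hκ0 : 0 < κ := by
    refine Real.log_pos ?_
    rw [lt_div_iff₀ (by linarith)]
    linarith
  set D : ℝ := (1 + C0) / κ + 1 with hD
  have hD0 : 0 < D := by positivity
  refine ⟨2 * D + 5, by positivity, fun T hT => ?_⟩
  obtain ⟨A1, hA1, hV1⟩ := hV0 (T + 2 * b + 1) (by linarith)
  obtain ⟨CG, hCG, hGG⟩ := h5.2 (2 * b) (T + 2 * b + 1)
  set K : ℝ := 1 + CG + CG * (2 * b + T) + 2 * T with hK
  refine ⟨max A1 (Real.exp K), le_trans hA1 (le_max_left _ _), fun A hA Z hZ => ?_⟩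
  have hAA1 : A1 ≤ A := le_trans (le_max_left _ _) hA
  have hApos : 0 < A := by linarith
  set l : ℝ := Real.log A with hl
  have hlK : K ≤ l := by
    have := Real.log_le_log (Real.exp_pos K) (le_trans (le_max_right _ _) hA)
    rwa [Real.log_exp] at this
  have hprod : 0 < CG * (2 * b + T) := by positivity
  have hl1 : 1 ≤ l := by linarith
  have hV := hV1 A hAA1 Z hZ
  obtain ⟨Λ, ε, hΛ, hε, hg, hfe⟩ := hZ.fe
  obtain ⟨e, he⟩ : ∃ e : ℂ, e ^ 2 = ε := IsAlgClosed.exists_pow_nat_eq ε (by norm_num)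
  have he0 : (starRingEnd ℂ) e ≠ 0 := by
    rw [map_ne_zero]
    intro h0
    rw [h0] at he
    rw [← he] at hε
    simp at hε
  -- the parameter
  set μ : ℝ := 1 / (2 * l * (1 / lam - 1 / 2)) with hμ
  have hlamp : 0 < 1 / lam - 1 / 2 := by
    rw [sub_pos]
    exact one_div_lt_one_div_of_lt (by linarith) hlam2
  have hμ0 : 0 < μ := by positivity
  have hμ' : 1 / μ + Real.log A = 2 * Real.log A / lam := by
    rw [hμ, one_div_one_div, ← hl]
    ring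
  set W : ℂ → ℂ := fun s => ((2 * Real.log A / lam : ℝ) : ℂ) + ld Gamma s with hW
  set V : ℂ → ℂ := VZ lam A Z with hVdef
  set F : ℂ → ℂ := fun s => (starRingEnd ℂ) e * Λ s with hF
  set G : ℂ → ℂ := fun s => F s + μ * deriv F s with hG
  -- facts on the open set
  have hmemV : ∀ s ∈ UU b T, DifferentiableAt ℂ V s ∧ W s ≠ 0 ∧ ‖V s‖ ≤ A ^ C0 ∧
      (b ≤ s.re → ‖V s - 1‖ ≤ 1 / 4 ∧ ‖deriv V s‖ ≤ 1) := by
    intro s hs
    obtain ⟨a1, a2, a3⟩ := hs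
    obtain ⟨_, q2, q3, _, _, q6, q7⟩ := hV s a1 a2 a3
    exact ⟨q2, q3, q6, fun h => ⟨(q7 h).2.2.1, (q7 h).2.2.2⟩⟩
  have hUre : ∀ s ∈ UU b T, 0 < s.re := fun s hs => by linarith [hs.1]
  have haV : AnalyticOnNhd ℂ V (UU b T) := by
    intro s hs
    rw [analyticAt_iff_eventually_differentiableAt]
    filter_upwards [(isOpen_UU b T).mem_nhds hs] with w hw
    exact (hmemV w hw).1
  have haΓ : AnalyticOnNhd ℂ Gamma (UU b T) := by
    intro s hs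
    rw [analyticAt_iff_eventually_differentiableAt]
    filter_upwards [(isOpen_UU b T).mem_nhds hs] with w hw
    exact (h5.1 w (hUre w hw)).1
  have haL : AnalyticOnNhd ℂ (ld Gamma) (UU b T) := by
    intro s hs
    rw [analyticAt_iff_eventually_differentiableAt]
    filter_upwards [(isOpen_UU b T).mem_nhds hs] with w hw
    exact (h5.1 w (hUre w hw)).2.2
  have haW : AnalyticOnNhd ℂ W (UU b T) := fun s hs => analyticAt_const.add (haL s hs)
  have hA0 : (A : ℂ) ≠ 0 := by exact_mod_cast hApos.ne'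
  have haA : AnalyticOnNhd ℂ (fun s : ℂ => (A : ℂ) ^ s) (UU b T) := by
    intro s _
    rw [analyticAt_iff_eventually_differentiableAt]
    refine Eventually.of_forall fun w => ?_
    exact DifferentiableAt.const_cpow differentiableAt_id (Or.inl hA0)
  have hA0' : ∀ s : ℂ, (A : ℂ) ^ s ≠ 0 := by
    intro s
    rw [cpow_ne_zero_iff]
    exact Or.inl hA0
  have hΓ0 : ∀ s ∈ UU b T, Gamma s ≠ 0 := fun s hs => (h5.1 s (hUre s hs)).2.1
  have hVne : ∀ s ∈ UU b T, b ≤ s.re → V s ≠ 0 := by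
    intro s hs hbs h0
    have := ((hmemV s hs).2.2.2 hbs).1
    rw [h0] at this
    norm_num at this
  -- membership
  have hmem : ∀ x t : ℝ, x ∈ Icc (1 / 2) b → t ∈ Icc 0 T → ((x : ℂ) + t * I) ∈ UU b T := by
    intro x t hx ht
    have r1 : ((x : ℂ) + t * I).re = x := by simp
    have r2 : ((x : ℂ) + t * I).im = t := by simp
    refine ⟨?_, ?_, ?_⟩
    · rw [r1]
      linarith [hx.1]
    · rw [r1]
      linarith [hx.2]
    · rw [r2, abs_lt]
      constructor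
      · linarith [ht.1]
      · linarith [ht.2]
  -- the zeros of `V`
  have hcpt : IsCompact (Icc (1 / 2) b ×ℂ Icc 0 T) := isCompact_Icc.reProdIm isCompact_Icc
  have hRU : (Icc (1 / 2) b ×ℂ Icc 0 T) ⊆ UU b T := by
    intro s hs
    rw [mem_reProdIm] at hs
    have := hmem s.re s.im hs.1 hs.2
    rwa [re_add_im] at this
  have hs0 : ((b : ℂ) + (0 : ℝ) * I) ∈ UU b T := hmem b 0 ⟨by linarith, le_rfl⟩ ⟨le_rfl, hT.le⟩
  have hs0' : V ((b : ℂ) + (0 : ℝ) * I) ≠ 0 := hVne _ hs0 (by simp)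
  have hVfin : {z | z ∈ (Icc (1 / 2) b ×ℂ Icc 0 T) ∧ V z = 0}.Finite :=
    Pool.Agent.H18.PZ.zeros_finite (convex_UU b T).isPreconnected haV hs0 hs0' hcpt hRU
  set N : Set ℝ := Complex.im '' {z | z ∈ (Icc (1 / 2) b ×ℂ Icc 0 T) ∧ V z = 0} with hN
  have hNfin : N.Finite := hVfin.image _
  set δ : ℝ := min (1 / 2) (T / 3) with hδ
  have hδ0 : 0 < δ := by positivity
  have hδ1 : δ ≤ 1 / 2 := min_le_left _ _
  have hδ2 : δ ≤ T / 3 := min_le_right _ _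
  obtain ⟨t₁, ht₁, ht₁N⟩ := (Ioo_infinite hδ0).exists_notMem_finite hNfin
  obtain ⟨t₂, ht₂, ht₂N⟩ := (Ioo_infinite (show T - δ < T by linarith)).exists_notMem_finite hNfin
  have ht12 : t₁ < t₂ := by linarith [ht₁.2, ht₂.1]
  have ht1I : t₁ ∈ Icc 0 T := ⟨ht₁.1.le, by linarith [ht₁.2]⟩
  have ht2I : t₂ ∈ Icc 0 T := ⟨by linarith [ht₂.1], ht₂.2.le⟩
  have hVh : ∀ h : ℝ, h ∈ Icc 0 T → h ∉ N → ∀ x ∈ Icc (1 / 2) b, V (x + h * I) ≠ 0 := by
    intro h hh hhN x hx h0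
    refine hhN ⟨x + h * I, ⟨?_, h0⟩, by simp⟩
    rw [mem_reProdIm]
    have r1 : ((x : ℂ) + h * I).re = x := by simp
    have r2 : ((x : ℂ) + h * I).im = h := by simp
    rw [r1, r2]
    exact ⟨hx, hh⟩
  have hVr : ∀ t : ℝ, t ∈ Icc t₁ t₂ → V (b + t * I) ≠ 0 := by
    intro t ht
    refine hVne _ (hmem b t ⟨by linarith, le_rfl⟩ ⟨ht1I.1.trans ht.1, ht.2.trans ht2I.2⟩) ?_
    simp
  -- the factorisation
  set H : ℂ → ℂ := fun s => ((starRingEnd ℂ) e * μ) * ((A : ℂ) ^ s * (Gamma s * (W s * V s)))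
    with hH
  have hGH : ∀ s ∈ UU b T, G s = H s := by
    intro s hs
    exact factor hApos hμ0.ne' hμ' ((starRingEnd ℂ) e) hZ.diff hg (hUre s hs) (hmemV s hs).2.1
  have hμC : (μ : ℂ) ≠ 0 := by exact_mod_cast hμ0.ne'
  have hcc : (starRingEnd ℂ) e * μ ≠ 0 := mul_ne_zero he0 hμC
  have hHne : ∀ s ∈ UU b T, V s ≠ 0 → G s ≠ 0 := by
    intro s hs hv
    rw [hGH s hs]
    exact mul_ne_zero hcc (mul_ne_zero (hA0' s) (mul_ne_zero (hΓ0 s hs)
      (mul_ne_zero (hmemV s hs).2.1 hv)))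
  have hFd : Differentiable ℂ F := hΛ.const_mul _
  obtain ⟨n1, n2⟩ := h3 F μ b t₁ t₂ hμ0 (by linarith) ht12 hFd
    (fun t => real_line he hε hfe t)
    (fun x hx => ⟨hHne _ (hmem x t₁ hx ht1I) (hVh t₁ ht1I ht₁N x hx),
      hHne _ (hmem x t₂ hx ht2I) (hVh t₂ ht2I ht₂N x hx)⟩)
    (fun t ht => hHne _ (hmem b t ⟨by linarith, le_rfl⟩
      ⟨ht1I.1.trans ht.1, ht.2.trans ht2I.2⟩) (hVr t ht))
  have hbb : (1 / 2 : ℝ) ≤ b := by linarith
  have hmem' : ∀ x t : ℝ, x ∈ Icc (1 / 2) b → t ∈ Icc t₁ t₂ → ((x : ℂ) + t * I) ∈ UU b T :=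
    fun x t hx ht => hmem x t hx ⟨ht1I.1.trans ht.1, ht.2.trans ht2I.2⟩
  have hside : ∀ s : ℂ, (1 / 2 ≤ s.re ∧ s.re ≤ b ∧ (s.im = t₁ ∨ s.im = t₂)) ∨
      (s.re = b ∧ t₁ ≤ s.im ∧ s.im ≤ t₂) → s ∈ UU b T ∧ V s ≠ 0 := by
    intro s hs
    have es : s = (s.re : ℂ) + s.im * I := (re_add_im s).symm
    rcases hs with ⟨q1, q2, q3 | q3⟩ | ⟨q1, q2, q3⟩
    · rw [es, q3]
      exact ⟨hmem _ _ ⟨q1, q2⟩ ht1I, hVh t₁ ht1I ht₁N _ ⟨q1, q2⟩⟩
    · rw [es, q3]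
      exact ⟨hmem _ _ ⟨q1, q2⟩ ht2I, hVh t₂ ht2I ht₂N _ ⟨q1, q2⟩⟩
    · rw [es, q1]
      exact ⟨hmem' _ _ ⟨hbb, le_rfl⟩ ⟨q2, q3⟩, hVr _ ⟨q2, q3⟩⟩
  -- the right part
  have hrpG : rp G (1 / 2) b t₁ t₂ = (t₂ - t₁) * l + (rp Gamma (1 / 2) b t₁ t₂ +
      (rp W (1 / 2) b t₁ t₂ + rp V (1 / 2) b t₁ t₂)) := by
    rw [rp_congr (isOpen_UU b T) hGH hbb ht12.le hmem', hH]
    rw [h1.2.2.2 (fun s => (A : ℂ) ^ s * (Gamma s * (W s * V s))) _ _ _ _ _ hcc]
    rw [h1.1 (fun s => (A : ℂ) ^ s) (fun s => Gamma s * (W s * V s)) _ _ _ _ hbb ht12.le ?_]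
    · rw [h1.1 Gamma (fun s => W s * V s) _ _ _ _ hbb ht12.le ?_]
      · rw [h1.1 W V _ _ _ _ hbb ht12.le ?_]
        · rw [h1.2.2.1 A _ _ _ _ hApos]
        · intro s hs
          obtain ⟨q1, q2⟩ := hside s hs
          exact ⟨haW s q1, haV s q1, (hmemV s q1).2.1, q2⟩
      · intro s hs
        obtain ⟨q1, q2⟩ := hside s hs
        exact ⟨haΓ s q1, (haW s q1).mul (haV s q1), hΓ0 s q1, mul_ne_zero (hmemV s q1).2.1 q2⟩
    · intro s hs
      obtain ⟨q1, q2⟩ := hside s hs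
      exact ⟨haA s q1, (haΓ s q1).mul ((haW s q1).mul (haV s q1)), hA0' s,
        mul_ne_zero (hΓ0 s q1) (mul_ne_zero (hmemV s q1).2.1 q2)⟩
  have hbT : CG * (2 * (b - 1 / 2) + (t₂ - t₁)) ≤ l := by
    have : CG * (2 * (b - 1 / 2) + (t₂ - t₁)) ≤ CG * (2 * b + T) := by
      refine mul_le_mul_of_nonneg_left ?_ hCG.le
      linarith [ht1I.1, ht2I.2]
    linarith
  have hUG : ∀ s ∈ UU b T, ‖ld Gamma s‖ ≤ CG ∧ ‖deriv (ld Gamma) s‖ ≤ CG :=
    fun s hs => hGG s hs.1.le hs.2.1.le hs.2.2.le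
  have hrpΓ : |rp Gamma (1 / 2) b t₁ t₂| ≤ l :=
    (h1.2.1 Gamma _ _ _ _ CG hbb ht12.le (fun s hs => (hUG s (hside s hs).1).1)).trans hbT
  have hWlow : ∀ s ∈ UU b T, 1 ≤ ‖W s‖ := by
    intro s hs
    have q1 : l ≤ 2 * l / lam := num_one (by linarith) (by linarith) hlam2
    have q2 : ‖((2 * Real.log A / lam : ℝ) : ℂ)‖ = 2 * l / lam := by
      rw [norm_real, Real.norm_eq_abs, abs_of_nonneg (by positivity)]
    have q3 : ‖((2 * Real.log A / lam : ℝ) : ℂ)‖ - ‖ld Gamma s‖ ≤ ‖W s‖ := by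
      have := norm_sub_norm_le ((2 * Real.log A / lam : ℝ) : ℂ) (-ld Gamma s)
      rwa [norm_neg, sub_neg_eq_add] at this
    have q4 := (hUG s hs).1
    rw [q2] at q3
    have q5 : 0 ≤ 2 * T := by linarith
    linarith
  have hrpW : |rp W (1 / 2) b t₁ t₂| ≤ l := by
    refine (h1.2.1 W _ _ _ _ CG hbb ht12.le (fun s hs => ?_)).trans hbT
    have q := (hside s hs).1
    have q1 : deriv W s = deriv (ld Gamma) s := deriv_const_add _
    rw [ld, q1, norm_div]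
    exact (div_le_self (norm_nonneg _) (hWlow s q)).trans (hUG s q).2
  have hclose : ∀ t : ℝ, t ∈ Icc 0 T → ‖V (b + t * I) - 1‖ ≤ 1 / 4 ∧ ‖deriv V (b + t * I)‖ ≤ 1 := by
    intro t ht
    exact (hmemV _ (hmem b t ⟨hbb, le_rfl⟩ ht)).2.2.2 (by simp)
  have hre : ∀ t : ℝ, t ∈ Icc 0 T → 1 / 2 ≤ (V (b + t * I)).re := by
    intro t ht
    have q1 := (abs_re_le_norm (V (b + t * I) - 1)).trans (hclose t ht).1
    rw [sub_re, one_re, abs_le] at q1
    linarith [q1.1]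
  have hsideC : Real.pi * (Real.log (2 * A ^ C0) / κ + 1) ≤ Real.pi * (D * l) :=
    num_side hApos hl1 hl hκ0
  have hs1 := side h4 hb ht₁.1 (by linarith [ht₁.2]) (fun s hs => (hmemV s hs).1)
    (fun s hs => (hmemV s hs).2.2.1) (hre t₁ ht1I) (hVh t₁ ht1I ht₁N) hsideC
  have hs2 := side h4 hb (by linarith [ht₂.1]) ht₂.2 (fun s hs => (hmemV s hs).1)
    (fun s hs => (hmemV s hs).2.2.1) (hre t₂ ht2I) (hVh t₂ ht2I ht₂N) hsideC
  have hT2 : 2 * T ≤ l := by linarith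
  have hrpV : |rp V (1 / 2) b t₁ t₂| ≤ l + 2 * (Real.pi * (D * l)) :=
    three_sides hT2 hs1 hs2 (right_side ht1I.1 ht12 ht2I.2 hclose)
  -- the zeros
  set S1 : Set ℂ := {ρ : ℂ | 1 / 2 ≤ ρ.re ∧ ρ.re < b ∧ t₁ < ρ.im ∧ ρ.im < t₂} with hS1
  set S2 : Set ℂ := {ρ : ℂ | 1 / 2 ≤ ρ.re ∧ ρ.re < b ∧ ρ ∈ St T} with hS2
  have hS12 : S1 ⊆ S2 := by
    rintro ρ ⟨q1, q2, q3, q4⟩
    exact ⟨q1, q2, by linarith [ht₁.1], by linarith [ht₂.2]⟩
  have hS2R : S2 ⊆ (Icc (1 / 2) b ×ℂ Icc 0 T) := by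
    rintro ρ ⟨q1, q2, q3, q4⟩
    rw [mem_reProdIm]
    exact ⟨⟨q1, q2.le⟩, ⟨q3.le, q4.le⟩⟩
  have hS2U : S2 ⊆ UU b T := hS2R.trans hRU
  have hS1U : S1 ⊆ UU b T := hS12.trans hS2U
  have hord : ∀ s ∈ UU b T, analyticOrderAt V s ≠ ⊤ := fun s hs =>
    Pool.Agent.H18.PZ.order_ne_top (convex_UU b T).isPreconnected haV hs0 hs0' hs
  have hzc1 : zc G S1 = zc V S1 := by
    rw [zc_congr (isOpen_UU b T) hGH hS1U]
    have e1 : H = fun s => V s * (((starRingEnd ℂ) e * μ) * ((A : ℂ) ^ s * (Gamma s * W s))) := by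
      funext s
      rw [hH]
      ring
    rw [e1]
    have hne : ∀ s ∈ S1, ((starRingEnd ℂ) e * μ) * ((A : ℂ) ^ s * (Gamma s * W s)) ≠ 0 := by
      intro s hs
      have q := hS1U hs
      exact mul_ne_zero hcc (mul_ne_zero (hA0' s) (mul_ne_zero (hΓ0 s q) (hmemV s q).2.1))
    refine (h2.1 V (fun s => ((starRingEnd ℂ) e * μ) * ((A : ℂ) ^ s * (Gamma s * W s))) S1 S1
      subset_rfl (fun s hs => ?_) ?_).2.2 hne
    · have q := hS1U hs
      have qa : AnalyticAt ℂ (fun s => ((starRingEnd ℂ) e * μ) *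
          ((A : ℂ) ^ s * (Gamma s * W s))) s :=
        analyticAt_const.mul ((haA s q).mul ((haΓ s q).mul (haW s q)))
      refine ⟨haV s q, qa, hord s q, ?_⟩
      rw [qa.analyticOrderAt_eq_zero.2 (hne s hs)]
      simp
    · refine hVfin.subset ?_
      rintro s ⟨q1, q2⟩
      exact ⟨hS2R (hS12 q1), (mul_eq_zero.1 q2).resolve_right (hne s q1)⟩
  have hzc2 : zc V S1 ≤ zc V S2 := by
    have q1 := (h2.1 V (fun _ => 1) S1 S2 hS12 (fun s hs => ?_) ?_).2.1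
    · simpa using q1
    · have q := hS2U hs
      refine ⟨haV s q, analyticAt_const, hord s q, ?_⟩
      have q2 : AnalyticAt ℂ (fun _ : ℂ => (1 : ℂ)) s := analyticAt_const
      rw [q2.analyticOrderAt_eq_zero.2 one_ne_zero]
      simp
    · refine hVfin.subset ?_
      rintro s ⟨q1, q2⟩
      refine ⟨hS2R q1, ?_⟩
      simpa using q2
  -- the simple zeros
  have hbZ : Z b ≠ 0 := by
    intro h0
    have q1 := hZ.one b (by simp; linarith)
    rw [h0, ofReal_re] at q1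
    simp only [zero_sub, norm_neg, norm_one] at q1
    linarith
  have hZfin : {z | z ∈ (Icc (1 / 2) b ×ℂ Icc 0 T) ∧ Z z = 0}.Finite :=
    Pool.Agent.H18.PZ.zeros_finite isPreconnected_univ (fun s _ => hZ.diff.analyticAt s)
      (mem_univ _) hbZ hcpt (subset_univ _)
  have hSZ : (SZ Z 0 T).Finite := by
    refine hZfin.subset ?_
    rintro s ⟨q1, q2, q3, q4, q5⟩
    refine ⟨?_, q1⟩
    rw [mem_reProdIm, q3]
    exact ⟨⟨le_rfl, hbb⟩, ⟨q4.le, q5.le⟩⟩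
  have hsubZ : SZ F t₁ t₂ ⊆ SZ Z 0 T := by
    rintro s ⟨q1, q2, q3, q4, q5⟩
    have hs : 0 < s.re := by rw [q3]; norm_num
    have hnp : ∀ w : ℂ, 0 < w.re → ∀ n : ℕ, w ≠ -(n : ℂ) := by
      intro w hw n hn
      rw [hn] at hw
      simp only [neg_re, natCast_re] at hw
      have : (0 : ℝ) ≤ n := Nat.cast_nonneg n
      linarith
    have hFZ : F =ᶠ[𝓝 s] fun w => ((starRingEnd ℂ) e * ((A : ℂ) ^ w * Gamma w)) * Z w := by
      filter_upwards [(isOpen_re (a := 0)).mem_nhds hs] with w hw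
      show (starRingEnd ℂ) e * Λ w = _
      rw [hg w (hnp w hw)]
      ring
    have hc0 : (starRingEnd ℂ) e * ((A : ℂ) ^ s * Gamma s) ≠ 0 :=
      mul_ne_zero he0 (mul_ne_zero (hA0' s) (Gamma_ne_zero (hnp s hs)))
    have hZ0 : Z s = 0 := by
      rw [hFZ.eq_of_nhds] at q1
      exact (mul_eq_zero.1 q1).resolve_left hc0
    refine ⟨hZ0, fun h0 => q2 ?_, q3, by linarith [ht₁.1], by linarith [ht₂.2]⟩
    rw [hFZ.deriv_eq]
    have d1 : DifferentiableAt ℂ (fun w => (starRingEnd ℂ) e * ((A : ℂ) ^ w * Gamma w)) s := by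
      refine (differentiableAt_const _).mul (DifferentiableAt.mul ?_ (h5.1 s hs).1)
      exact DifferentiableAt.const_cpow differentiableAt_id (Or.inl hA0)
    rw [deriv_fun_mul d1 (hZ.diff s), hZ0, h0]
    simp
  refine ⟨hSZ, ?_⟩
  have hcard : ((SZ F t₁ t₂).ncard : ℝ) ≤ ((SZ Z 0 T).ncard : ℝ) := by
    exact_mod_cast ncard_le_ncard hsubZ hSZ
  rw [hzc1] at n2
  rw [hrpG] at n2
  have ht1' : t₁ ≤ 1 / 2 := by linarith [ht₁.2]
  have ht2' : T - 1 / 2 ≤ t₂ := by linarith [ht₂.1]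
  have hfin := num_fin (T := T) (D := D) (by linarith : (0 : ℝ) ≤ l) ht1' ht2' hrpΓ hrpW hrpV hl1
  linarith

end Pool.Agent.H90.CRZ
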