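import Pool.Agent.H65.CRZ.TN
import Pool.Agent.H59.CV.SMO
import Pool.Agent.H37.CV.OR
import Pool.Agent.H3.CV.GC
import Pool.Agent.H86.CV.DV

/-!
MP_347b49_nt, board crz_modules, row OP: the second moment opened (with shifts and two general
polynomials). Adapted from the file SMO of helper59.
-/

set_option autoImplicit false

open NumberField NumberField.InfinitePlace Complex Filter Topology MeasureTheory

namespace Pool.Agent.H90.CRZ

open Pool.Agent.H28.RC Pool.Agent.H25.HK Pool.Agent.H37.CV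
open Pool.Agent.H65.CRZ hiding cc
open Pool.Agent.H59.CV (XX YY reparam summable_nm3 norm_le_one cc norm_cc_le inner_sum idS_ne
  idS_sup nS_pos mul_ne NB one_le_nm nm_mul)

/-- the power identity -/
theorem coefg {x y a b g t : ℝ} (hx : 0 < x) (hy : 0 < y) (ha : 0 < a) (hb : 0 < b) (hg : 0 < g)
    (ht : 0 < t) (s₁ s₂ : ℂ) :
    ((x * (b / g) * t : ℝ) : ℂ) ^ (-s₁) * ((y * (a / g) * t : ℝ) : ℂ) ^ (-s₂) =
      (x : ℂ) ^ (-s₁) * (y : ℂ) ^ (-s₂) * (((b / g : ℝ) : ℂ) ^ (-s₁) * ((a / g : ℝ) : ℂ) ^ (-s₂)) *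
        (t : ℂ) ^ (-(s₁ + s₂)) := by
  have h1 : ∀ (u v w : ℝ) (s : ℂ), 0 ≤ u → 0 ≤ v → 0 ≤ w →
      ((u * v * w : ℝ) : ℂ) ^ s = (u : ℂ) ^ s * (v : ℂ) ^ s * (w : ℂ) ^ s := by
    intro u v w s hu hv hw
    rw [ofReal_mul, mul_cpow_ofReal_nonneg (mul_nonneg hu hv) hw, ofReal_mul,
      mul_cpow_ofReal_nonneg hu hv]
  have ht0 : (t : ℂ) ≠ 0 := by exact_mod_cast ht.ne'
  rw [h1 x (b / g) t _ hx.le (by positivity) ht.le, h1 y (a / g) t _ hy.le (by positivity) ht.le,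
    neg_add, cpow_add _ _ ht0]
  ring

section
variable {K : Type} [Field K] [NumberField K]

/-- the terms of the sum -/
noncomputable def FG (Q : ℝ) (s₁ s₂ : ℂ) (p : NI K × NI K) : ℂ :=
  (((nm p.1.1 : ℝ) : ℂ) ^ (-s₁) * ((nm p.2.1 : ℝ) : ℂ) ^ (-s₂)) *
    Vg s₁ s₂ (nm p.1.1 * nm p.2.1 / Q)

theorem norm_pow_le {x : ℝ} (hx : 1 ≤ x) {s : ℂ} (hs : 0 ≤ s.re) : ‖(x : ℂ) ^ (-s)‖ ≤ 1 := by
  rw [norm_cpow_eq_rpow_re_of_pos (by linarith)]
  refine Real.rpow_le_one_of_one_le_of_nonpos hx ?_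
  rw [neg_re]
  linarith

theorem summable_FG (hVG : T_VG) {C : ℝ} (h : NB K C) {Q : ℝ} (hQ : 0 < Q) {s₁ s₂ : ℂ}
    (h1 : 3 / 8 ≤ s₁.re) (h2 : s₁.re ≤ 5 / 8) (h3 : 3 / 8 ≤ s₂.re) (h4 : s₂.re ≤ 5 / 8) :
    Summable (fun p : NI K × NI K => ‖FG Q s₁ s₂ p‖) := by
  obtain ⟨D, B, hD, hB, hV⟩ := hVG 3 (by norm_num)
  set E : ℝ := D * (1 + |s₁.im| + |s₂.im|) ^ B with hE
  have hs : Summable (fun p : NI K × NI K => ((nm p.1.1) ^ 3)⁻¹ * ((nm p.2.1) ^ 3)⁻¹) :=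
    Summable.mul_of_nonneg (f := fun t : NI K => ((nm t.1) ^ 3)⁻¹)
      (g := fun t : NI K => ((nm t.1) ^ 3)⁻¹) (summable_nm3 h) (summable_nm3 h)
      (fun t => by
        have := one_le_nm t.2
        simp only [Pi.zero_apply]
        positivity)
      (fun t => by
        have := one_le_nm t.2
        simp only [Pi.zero_apply]
        positivity)
  have hs2 := hs.mul_left (E * Q ^ 3)
  refine Summable.of_nonneg_of_le (fun p => norm_nonneg (FG Q s₁ s₂ p)) (fun p => ?_) hs2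
  have ha := one_le_nm p.1.2
  have hb := one_le_nm p.2.2
  have ha0 : 0 < nm p.1.1 := by linarith
  have hb0 : 0 < nm p.2.1 := by linarith
  have hx : 0 < nm p.1.1 * nm p.2.1 / Q := by positivity
  have h5 := (hV s₁ s₂ (by linarith) (by linarith) (by linarith) (by linarith) _ hx).2.2
  have h6 : ‖Vg s₁ s₂ (nm p.1.1 * nm p.2.1 / Q)‖ ≤
      E * Q ^ 3 * (((nm p.1.1) ^ 3)⁻¹ * ((nm p.2.1) ^ 3)⁻¹) := by
    refine h5.trans (le_of_eq ?_)
    rw [← hE]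
    have e : (nm p.1.1 * nm p.2.1 / Q) ^ (-(3 : ℝ)) = ((nm p.1.1 * nm p.2.1 / Q) ^ 3)⁻¹ := by
      rw [Real.rpow_neg hx.le]
      norm_cast
    rw [e]
    field_simp
  unfold FG
  rw [norm_mul, norm_mul]
  have h7 := norm_pow_le ha (show 0 ≤ s₁.re by linarith)
  have h8 := norm_pow_le hb (show 0 ≤ s₂.re by linarith)
  have h9 : ‖((nm p.1.1 : ℝ) : ℂ) ^ (-s₁)‖ * ‖((nm p.2.1 : ℝ) : ℂ) ^ (-s₂)‖ ≤ 1 :=
    mul_le_one₀ h7 (norm_nonneg _) h8
  calc ‖((nm p.1.1 : ℝ) : ℂ) ^ (-s₁)‖ * ‖((nm p.2.1 : ℝ) : ℂ) ^ (-s₂)‖ *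
        ‖Vg s₁ s₂ (nm p.1.1 * nm p.2.1 / Q)‖
      ≤ 1 * ‖Vg s₁ s₂ (nm p.1.1 * nm p.2.1 / Q)‖ :=
        mul_le_mul_of_nonneg_right h9 (norm_nonneg _)
    _ ≤ _ := by rw [one_mul]; exact h6

theorem summable_cg {Q : ℝ} {s₁ s₂ : ℂ} (hs : Summable (fun p : NI K × NI K => ‖FG Q s₁ s₂ p‖))
    {m : Ideal (𝓞 K)} {ψ : Ideal (𝓞 K) → ℂ} (h : PC m ψ) (S T : Ideal (𝓞 K)) :
    Summable (fun p : NI K × NI K => FG Q s₁ s₂ p * cc ψ S T p) := by
  refine Summable.of_norm (hs.of_nonneg_of_le (fun _ => norm_nonneg _) fun p => ?_)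
  rw [norm_mul]
  calc ‖FG Q s₁ s₂ p‖ * ‖cc ψ S T p‖ ≤ ‖FG Q s₁ s₂ p‖ * 1 :=
        mul_le_mul_of_nonneg_left (norm_cc_le h S T p) (norm_nonneg _)
    _ = _ := mul_one _

theorem open_psi {m : Ideal (𝓞 K)} {ψ : Ideal (𝓞 K) → ℂ} (h : PC m ψ) (Q M : ℝ) (s₁ s₂ : ℂ)
    (c₁ c₂ : Finset (PrI K) → ℂ) :
    A2g Q s₁ s₂ ψ * (pol M c₁ ψ * pol M c₂ (fun I => (starRingEnd ℂ) (ψ I))) =
      ∑ S ∈ DM K M, ∑ T ∈ DM K M,
        c₁ S * c₂ T * ∑' p : NI K × NI K, FG Q s₁ s₂ p * cc ψ (idS S) (idS T) p := by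
  unfold pol
  rw [Finset.sum_mul_sum, Finset.mul_sum]
  refine Finset.sum_congr rfl fun S _ => ?_
  rw [Finset.mul_sum]
  refine Finset.sum_congr rfl fun T _ => ?_
  have h4 : A2g Q s₁ s₂ ψ * (ψ (idS S) * (starRingEnd ℂ) (ψ (idS T))) =
      ∑' p : NI K × NI K, FG Q s₁ s₂ p * cc ψ (idS S) (idS T) p := by
    unfold A2g
    rw [← tsum_mul_right]
    refine tsum_congr fun p => ?_
    unfold FG cc
    rw [h.mul, h.mul, map_mul]
    ring
  rw [← h4]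
  ring

end

theorem op_of (hOR : T_OR) (hGC : T_GC) (hDV : T_DV) (hVG : T_VG) : T_OP := by
  classical
  intro K _ _ _ m d Q M s₁ s₂ c₁ c₂ hm hmd hQ hM hP hr1 hr2 hr3 hr4
  obtain ⟨C, hC⟩ := (hDV K).2
  have hNB : NB K C := hC
  obtain ⟨hfin, hnc, hor⟩ := hOR K m d hm hmd
  -- the parametrisation
  have hφ : ∀ S T : Finset (PrI K), ∃ φ : YY m d → NI K × NI K, S ∈ DM K M → T ∈ DM K M →
      Function.Injective φ ∧ Set.range φ = XX m d (idS S) (idS T) ∧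
      ∀ y, c₁ S * c₂ T * FG Q s₁ s₂ (φ y) =
        ((nm y.1.1.1 : ℝ) : ℂ) ^ (-s₁) * ((nm y.1.1.2 : ℝ) : ℂ) ^ (-s₂) *
          (c₁ S * c₂ T * (((nS np T / gg np (pf y.1.1.1) (pf y.1.1.2) S T : ℝ) : ℂ) ^ (-s₁) *
            ((nS np S / gg np (pf y.1.1.1) (pf y.1.1.2) S T : ℝ) : ℂ) ^ (-s₂)) *
            (((nm y.2.1 : ℝ) : ℂ) ^ (-(s₁ + s₂)) *
              Vg s₁ s₂ (nm y.2.1 ^ 2 / (Q * gg np (pf y.1.1.1) (pf y.1.1.2) S T ^ 2 /
                (nS np S * nS np T * (nm y.1.1.1 * nm y.1.1.2)))))) := by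
    intro S T
    by_cases hST : S ∈ DM K M ∧ T ∈ DM K M
    · obtain ⟨hS, hT⟩ := hST
      have h1 : ∀ p : CP m d, ∃ g u v : Ideal (𝓞 K), g ≠ ⊥ ∧ idS S * p.1.2 = g * u ∧
          idS T * p.1.1 = g * v ∧ u ⊔ v = ⊤ ∧ nm g = gg np (pf p.1.1) (pf p.1.2) S T := fun p =>
        ((hGC K S T).2 p.1.1 p.1.2 p.2.1 p.2.2.1 p.2.2.2.1).2
      choose G U V hG hU hV hUV hg using h1
      obtain ⟨φ, h2, h3, h4⟩ := reparam (idS_ne S) (idS_ne T) (idS_sup hP hS) (idS_sup hP hT)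
        G U V hG hU hV hUV
      refine ⟨φ, fun _ _ => ⟨h2, h3, fun y => ?_⟩⟩
      obtain ⟨p, t⟩ := y
      have hI := one_le_nm p.2.1
      have hJ := one_le_nm p.2.2.1
      have ht := one_le_nm t.2.1
      have hgp := one_le_nm (hG p)
      have hI0 : 0 < nm p.1.1 := by linarith
      have hJ0 : 0 < nm p.1.2 := by linarith
      have ht0 : 0 < nm t.1 := by linarith
      have hg0 : 0 < nm (G p) := by linarith
      have hS' : nm (idS S) = nS np S := (hGC K S T).1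
      have hT' : nm (idS T) = nS np T := (hGC K T S).1
      have hSp := nS_pos S
      have hTp := nS_pos T
      have e1 : nS np S * nm p.1.2 = nm (G p) * nm (U p) := by
        rw [← hS', ← nm_mul, ← nm_mul, hU p]
      have e2 : nS np T * nm p.1.1 = nm (G p) * nm (V p) := by
        rw [← hT', ← nm_mul, ← nm_mul, hV p]
      have eV : nm (V p) = nm p.1.1 * (nS np T / nm (G p)) := by
        field_simp
        linarith
      have eU : nm (U p) = nm p.1.2 * (nS np S / nm (G p)) := by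
        field_simp
        linarith
      have f1 : nm (φ ⟨p, t⟩).1.1 = nm p.1.1 * (nS np T / nm (G p)) * nm t.1 := by
        rw [(h4 ⟨p, t⟩).1, nm_mul, eV]
      have f2 : nm (φ ⟨p, t⟩).2.1 = nm p.1.2 * (nS np S / nm (G p)) * nm t.1 := by
        rw [(h4 ⟨p, t⟩).2, nm_mul, eU]
      have hc := coefg hI0 hJ0 hSp hTp hg0 ht0 s₁ s₂
      have hv : nm p.1.1 * (nS np T / nm (G p)) * nm t.1 *
          (nm p.1.2 * (nS np S / nm (G p)) * nm t.1) / Q = nm t.1 ^ 2 /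
          (Q * nm (G p) ^ 2 / (nS np S * nS np T * (nm p.1.1 * nm p.1.2))) := by
        field_simp
      unfold FG
      simp only [f1, f2]
      rw [hv, hc, ← hg p]
      ring
    · refine ⟨fun _ => (⟨⊤, top_ne_bot⟩, ⟨⊤, top_ne_bot⟩), fun h1 h2 => absurd ⟨h1, h2⟩ hST⟩
  choose φ hφ using hφ
  -- summability
  have hsF := summable_FG (K := K) hVG hNB hQ hr1 hr2 hr3 hr4
  have hsum : ∀ S ∈ DM K M, ∀ T ∈ DM K M,
      Summable (fun y : YY m d => ‖FG Q s₁ s₂ (φ S T y)‖) :=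
    fun S hS T hT => hsF.comp_injective (hφ S T hS hT).1
  have hDd : ∀ p : CP m d, Dg m Q M s₁ s₂ c₁ c₂ p.1.1 p.1.2 = ∑ S ∈ DM K M, ∑ T ∈ DM K M,
      c₁ S * c₂ T *
        ∑' t : {t : Ideal (𝓞 K) // t ≠ ⊥ ∧ t ⊔ m = ⊤}, FG Q s₁ s₂ (φ S T ⟨p, t⟩) := by
    intro p
    unfold Dg
    rw [Finset.mul_sum]
    refine Finset.sum_congr rfl fun S hS => ?_
    rw [Finset.mul_sum]
    refine Finset.sum_congr rfl fun T hT => ?_
    unfold Sg
    rw [← tsum_mul_left, ← tsum_mul_left, ← tsum_mul_left]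
    refine tsum_congr fun t => ?_
    exact ((hφ S T hS hT).2.2 ⟨p, t⟩).symm
  have hsDn : ∀ S ∈ DM K M, ∀ T ∈ DM K M, Summable (fun p : CP m d => ‖c₁ S * c₂ T *
      ∑' t : {t : Ideal (𝓞 K) // t ≠ ⊥ ∧ t ⊔ m = ⊤}, FG Q s₁ s₂ (φ S T ⟨p, t⟩)‖) := by
    intro S hS T hT
    have h1 := (hsum S hS T hT).sigma.mul_left ‖c₁ S * c₂ T‖
    refine h1.of_nonneg_of_le (fun _ => norm_nonneg _) fun p => ?_
    rw [norm_mul]
    exact mul_le_mul_of_nonneg_left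
      (norm_tsum_le_tsum_norm ((hsum S hS T hT).sigma_factor p)) (norm_nonneg _)
  refine ⟨?_, ?_⟩
  · have h1 : Summable (fun p : CP m d => ∑ S ∈ DM K M, ∑ T ∈ DM K M, ‖c₁ S * c₂ T *
        ∑' t : {t : Ideal (𝓞 K) // t ≠ ⊥ ∧ t ⊔ m = ⊤}, FG Q s₁ s₂ (φ S T ⟨p, t⟩)‖) :=
      summable_sum fun S hS => summable_sum fun T hT => hsDn S hS T hT
    refine h1.of_nonneg_of_le (fun _ => norm_nonneg _) fun p => ?_
    rw [hDd p]
    exact (norm_sum_le _ _).trans (Finset.sum_le_sum fun S _ => norm_sum_le _ _)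
  · -- the sum of `Dg`
    have hR : ∑' p : CP m d, Dg m Q M s₁ s₂ c₁ c₂ p.1.1 p.1.2 = ∑ S ∈ DM K M, ∑ T ∈ DM K M,
        c₁ S * c₂ T * ∑' y : YY m d, FG Q s₁ s₂ (φ S T y) := by
      rw [tsum_congr hDd, Summable.tsum_finsetSum
        (fun S hS => summable_sum fun T hT => (hsDn S hS T hT).of_norm)]
      refine Finset.sum_congr rfl fun S hS => ?_
      rw [Summable.tsum_finsetSum (fun T hT => (hsDn S hS T hT).of_norm)]
      refine Finset.sum_congr rfl fun T hT => ?_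
      rw [tsum_mul_left]
      congr 1
      have h1 : Summable (fun y : YY m d => FG Q s₁ s₂ (φ S T y)) := (hsum S hS T hT).of_norm
      have h2 : ∀ p : CP m d, Summable
          (fun t : {t : Ideal (𝓞 K) // t ≠ ⊥ ∧ t ⊔ m = ⊤} => FG Q s₁ s₂ (φ S T ⟨p, t⟩)) := by
        intro p
        apply h1.sigma_factor p
      have h3 := Summable.tsum_sigma' (f := fun y : YY m d => FG Q s₁ s₂ (φ S T y)) h2 h1
      rw [h3]
    rw [hR, finsum_mem_eq_finite_toFinset_sum _ hfin]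
    have hpc : ∀ ψ ∈ hfin.toFinset, PC m ψ := fun ψ hψ => (hfin.mem_toFinset.1 hψ).1
    rw [Finset.sum_congr rfl fun ψ hψ => open_psi (hpc ψ hψ) Q M s₁ s₂ c₁ c₂, Finset.sum_comm,
      Finset.mul_sum]
    refine Finset.sum_congr rfl fun S hS => ?_
    rw [Finset.sum_comm, Finset.mul_sum]
    refine Finset.sum_congr rfl fun T hT => ?_
    rw [← Finset.mul_sum]
    have h1 : ∑ ψ ∈ hfin.toFinset, ∑' p : NI K × NI K, FG Q s₁ s₂ p * cc ψ (idS S) (idS T) p =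
        nc m d * ∑' y : YY m d, FG Q s₁ s₂ (φ S T y) := by
      rw [← Summable.tsum_finsetSum (fun ψ hψ => summable_cg hsF (hpc ψ hψ) _ _)]
      obtain ⟨hinj, hran, _⟩ := hφ S T hS hT
      have h2 : ∀ p : NI K × NI K,
          ∑ ψ ∈ hfin.toFinset, FG Q s₁ s₂ p * cc ψ (idS S) (idS T) p =
          Set.indicator (XX m d (idS S) (idS T)) (fun p => (nc m d : ℂ) * FG Q s₁ s₂ p) p := by
        intro p
        rw [← Finset.mul_sum]
        have h3 := inner_sum hfin hor (idS_ne S) (idS_ne T) (idS_sup hP hS) (idS_sup hP hT) p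
        by_cases hp : p ∈ XX m d (idS S) (idS T)
        · rw [h3.1 hp, Set.indicator_of_mem hp]
          ring
        · rw [h3.2 hp, Set.indicator_of_notMem hp, mul_zero]
      rw [tsum_congr h2, ← hinj.tsum_eq (f := Set.indicator (XX m d (idS S) (idS T))
        (fun p => (nc m d : ℂ) * FG Q s₁ s₂ p)) (by
          rw [hran]
          exact Set.support_indicator_subset), ← tsum_mul_left]
      refine tsum_congr fun y => ?_
      rw [Set.indicator_of_mem]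
      rw [← hran]
      exact ⟨y, rfl⟩
    rw [h1]
    ring

theorem pf_OP (h1 : T_VG) : T_OP := op_of pf_OR Pool.Agent.H3.CV.pf_GC Pool.Agent.H86.CV.pf_DV h1

end Pool.Agent.H90.CRZ
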